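import Pool.Agent.Helper87.GurFinal

/-! The isomorphism class of the Gurarii space is not Borel (hence not `G_δ`), neither in
`P_∞` nor in `B`. The definitions used in the statement are in
`Pool/Agent/Helper87/GurDefs.lean`. -/

namespace Pool.Agent.Results.MP_c7f7e8_an.GurariiClassNotBorel

open MeasureTheory Gur

universe u

/-- If `G` is a Gurarii space, then the isomorphism class of `G` is not a Borel subset, and hence
not a `G_δ` subset, of `P_∞`, and the same holds in `B`. -/
theorem result (G : Type u) [NormedAddCommGroup G] [NormedSpace ℝ G] (hG : IsGurarii G) :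
    (¬ MeasurableSet[borel Pinf] (isoClass Pinf G) ∧ ¬ IsGδ (isoClass Pinf G)) ∧
    (¬ MeasurableSet[borel Bset] (isoClass Bset G) ∧ ¬ IsGδ (isoClass Bset G)) :=
  ⟨⟨Pinf_not_borel hG, not_gdelta _ (Pinf_not_borel hG)⟩,
    ⟨Bset_not_borel hG, not_gdelta _ (Bset_not_borel hG)⟩⟩

end Pool.Agent.Results.MP_c7f7e8_an.GurariiClassNotBorel
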